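import Mathlib

open Finset

namespace Pool.Agent.Results.MP_7d5f0f_co.Yes

/-- `A` is a maximal antichain of the Boolean lattice of subsets of `{0,…,n-1}`. -/
def MaxAntichain (n : ℕ) (A : Finset (Finset ℕ)) : Prop :=
  (∀ X ∈ A, X ⊆ range n) ∧ (∀ X ∈ A, ∀ Y ∈ A, X ⊆ Y → X = Y) ∧
    ∀ X ⊆ range n, X ∉ A → ∃ Y ∈ A, X ⊆ Y ∨ Y ⊆ X

/-- `m ∈ S(n,l)` -/
def InS (n l : ℕ) (m : ℤ) : Prop :=
  ∃ A, MaxAntichain n A ∧ (∀ X ∈ A, X.card = l ∨ X.card = l + 1) ∧ (A.card : ℤ) = m

/-- `T(n,l)`; note `(n - l + 1) / 2 = ⌈(n-l)/2⌉` -/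
def T (n l : ℕ) : ℤ := (n.choose (l + 1) : ℤ) - ((n : ℤ) - l - 1) * (((n : ℤ) - l + 1) / 2)

/-- form (G) -/
def FormG (n l : ℕ) (m : ℤ) : Prop :=
  ∃ t a b c : ℕ, 1 ≤ t ∧ (t : ℤ) ≤ (n : ℤ) - l + 1 ∧ b ≤ a ∧ c ≤ b ∧ 1 ≤ a + b ∧ a + b ≤ t ∧
    m = (n.choose (l + 1) : ℤ) - ((n : ℤ) - l - 1) * t + a.choose 2 + b.choose 2 + c

def shadow (n l : ℕ) (H : Finset (Finset ℕ)) : Finset (Finset ℕ) :=
  (powersetCard (l + 1) (range n)).filter (fun U => ∃ h ∈ H, h ⊆ U)

def Good (n l t D : ℕ) : Prop :=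
  ∃ H ⊆ powersetCard l (range n), H.card = t ∧ (shadow n l H).card = D ∧
    ∀ X ∈ powersetCard l (range n), X ∉ H →
      ∃ U ∈ powersetCard (l + 1) (range n), X ⊆ U ∧ ∀ h ∈ H, ¬ h ⊆ U

lemma Good.anti {n l t D : ℕ} (h : Good n l t D) (hl : l ≤ n) :
    InS n l ((n.choose (l + 1) : ℤ) + t - D) := by
  obtain ⟨H, hH, ht, hD, hmax⟩ := h
  have hc : ∀ X ∈ H, X ⊆ range n ∧ X.card = l := fun X hX => mem_powersetCard.mp (hH hX)
  set B := (powersetCard (l + 1) (range n)).filter (fun U => ¬ ∃ h ∈ H, h ⊆ U) with hB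
  have hBm : ∀ U, U ∈ B ↔ (U ⊆ range n ∧ U.card = l + 1) ∧ ∀ h ∈ H, ¬ h ⊆ U := by
    intro U; simp [hB, mem_powersetCard]
  refine ⟨H ∪ B, ⟨?_, ?_, ?_⟩, ?_, ?_⟩
  · intro X hX
    rcases mem_union.mp hX with h | h
    · exact (hc X h).1
    · exact ((hBm X).mp h).1.1
  · intro X hX Y hY hXY
    rcases mem_union.mp hX with h | h <;> rcases mem_union.mp hY with h' | h'
    · exact eq_of_subset_of_card_le hXY (by rw [(hc X h).2, (hc Y h').2])
    · exact absurd hXY (((hBm Y).mp h').2 X h)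
    · have := card_le_card hXY
      rw [((hBm X).mp h).1.2, (hc Y h').2] at this; omega
    · exact eq_of_subset_of_card_le hXY (by rw [((hBm X).mp h).1.2, ((hBm Y).mp h').1.2])
  · intro X hX _
    by_cases hx : X.card ≤ l
    · obtain ⟨Z, h1, h2, h3⟩ := exists_subsuperset_card_eq hX hx (by simpa using hl)
      by_cases hZ : Z ∈ H
      · exact ⟨Z, mem_union_left _ hZ, Or.inl h1⟩
      · obtain ⟨U, hU, h4, h5⟩ := hmax Z (mem_powersetCard.mpr ⟨h2, h3⟩) hZ
        exact ⟨U, mem_union_right _ ((hBm U).mpr ⟨mem_powersetCard.mp hU, h5⟩),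
          Or.inl (h1.trans h4)⟩
    · obtain ⟨U, h1, h2⟩ := exists_subset_card_eq (show l + 1 ≤ X.card by omega)
      by_cases hU : ∃ h ∈ H, h ⊆ U
      · obtain ⟨Z, hZ, h3⟩ := hU
        exact ⟨Z, mem_union_left _ hZ, Or.inr (h3.trans h1)⟩
      · push Not at hU
        exact ⟨U, mem_union_right _ ((hBm U).mpr ⟨⟨h1.trans hX, h2⟩, hU⟩), Or.inr h1⟩
  · intro X hX
    rcases mem_union.mp hX with h | h
    · exact Or.inl (hc X h).2
    · exact Or.inr ((hBm X).mp h).1.2
  · have hd : Disjoint H B := by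
      rw [disjoint_left]
      intro X h h'
      exact ((hBm X).mp h').2 X h subset_rfl
    have := card_filter_add_card_filter_not (s := powersetCard (l + 1) (range n))
      (fun U => ∃ h ∈ H, h ⊆ U)
    rw [card_powersetCard, card_range, ← hB] at this
    unfold shadow at hD
    rw [card_union_of_disjoint hd, ← this, hD, ht]
    push_cast; ring

lemma Good.lift {n l t D : ℕ} (h : Good n l t D) (hl : l + 2 ≤ n) :
    Good (n + 1) (l + 1) t D := by
  obtain ⟨H, hH, ht, hD, hmax⟩ := h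
  have hn : ∀ X : Finset ℕ, X ⊆ range n → n ∉ X := fun X hX h => by simpa using hX h
  have hinj : ∀ k, Set.InjOn (fun X : Finset ℕ => insert n X) (powersetCard k (range n)) := by
    intro k X hX Y hY e
    have h1 := hn X (mem_powersetCard.mp hX).1
    have h2 := hn Y (mem_powersetCard.mp hY).1
    rw [← erase_insert h1, ← erase_insert h2]
    exact congrArg (fun Z => Z.erase n) e
  have hins : ∀ k X, X ∈ powersetCard k (range n) →
      insert n X ∈ powersetCard (k + 1) (range (n + 1)) := by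
    intro k X hX
    obtain ⟨h1, h2⟩ := mem_powersetCard.mp hX
    rw [mem_powersetCard, range_add_one, card_insert_of_notMem (hn X h1), h2]
    exact ⟨insert_subset_insert _ h1, rfl⟩
  have hers : ∀ k X, X ∈ powersetCard (k + 1) (range (n + 1)) → n ∈ X →
      X.erase n ∈ powersetCard k (range n) := by
    intro k X hX hx
    obtain ⟨h1, h2⟩ := mem_powersetCard.mp hX
    rw [mem_powersetCard, card_erase_of_mem hx, h2]
    refine ⟨fun y hy => ?_, rfl⟩
    have := h1 (mem_of_mem_erase hy)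
    have := ne_of_mem_erase hy
    simp only [mem_range] at *; omega
  refine ⟨H.image (insert n), ?_, ?_, ?_, ?_⟩
  · intro X hX
    obtain ⟨Y, hY, rfl⟩ := mem_image.mp hX
    exact hins _ _ (hH hY)
  · rw [card_image_of_injOn ((hinj l).mono hH), ht]
  · have : shadow (n + 1) (l + 1) (H.image (insert n)) = (shadow n l H).image (insert n) := by
      ext U
      simp only [shadow, mem_filter, mem_image]
      constructor
      · rintro ⟨hU, _, ⟨h, hh, rfl⟩, hs⟩
        have hnU : n ∈ U := hs (mem_insert_self _ _)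
        refine ⟨U.erase n, ⟨hers _ _ hU hnU, h, hh, ?_⟩, insert_erase hnU⟩
        exact subset_erase.mpr ⟨(subset_insert _ _).trans hs, hn h (mem_powersetCard.mp (hH hh)).1⟩
      · rintro ⟨V, ⟨hV, h, hh, hs⟩, rfl⟩
        exact ⟨hins _ _ hV, _, ⟨h, hh, rfl⟩, insert_subset_insert _ hs⟩
    rw [this, ← hD]
    exact card_image_of_injOn ((hinj (l + 1)).mono (filter_subset _ _))
  · intro X hX hXH
    by_cases hx : n ∈ X
    · obtain ⟨U, hU, h1, h2⟩ := hmax _ (hers _ _ hX hx)
        (fun h => hXH (mem_image.mpr ⟨_, h, insert_erase hx⟩))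
      refine ⟨insert n U, hins _ _ hU, ?_, ?_⟩
      · rw [← insert_erase hx]; exact insert_subset_insert _ h1
      · intro h hh hs
        obtain ⟨Y, hY, rfl⟩ := mem_image.mp hh
        apply h2 Y hY
        intro y hy
        rcases mem_insert.mp (hs (mem_insert_of_mem hy)) with e | e
        · exact absurd (e ▸ hy) (hn Y (mem_powersetCard.mp (hH hY)).1)
        · exact e
    · obtain ⟨h1, h2⟩ := mem_powersetCard.mp hX
      have h3 : X ⊆ range n := by
        intro y hy
        have := h1 hy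
        have : y ≠ n := fun e => hx (e ▸ hy)
        simp only [mem_range] at *; omega
      obtain ⟨U, h4, h5, h6⟩ := exists_subsuperset_card_eq h3 (show X.card ≤ l + 1 + 1 by omega)
        (by rw [card_range]; omega)
      refine ⟨U, mem_powersetCard.mpr ⟨h5.trans (by simp), h6⟩, h4, ?_⟩
      intro h hh hs
      obtain ⟨Y, -, rfl⟩ := mem_image.mp hh
      exact hn U h5 (hs (mem_insert_self _ _))

/-! ### graphs -/

open Classical in
noncomputable def spans (n k : ℕ) (G : ℕ → ℕ → Prop) : Finset (Finset ℕ) :=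
  (powersetCard k (range n)).filter (fun U => ∃ x ∈ U, ∃ y ∈ U, G x y)

open Classical in
lemma spans_add (n k : ℕ) (G G' : ℕ → ℕ → Prop) (p q : ℕ)
    (h : ∀ x y, G' x y ↔ G x y ∨ (x = p ∧ y = q)) :
    (spans n k G').card = (spans n k G).card + ((powersetCard k (range n)).filter
      (fun U => p ∈ U ∧ q ∈ U ∧ ¬ ∃ x ∈ U, ∃ y ∈ U, G x y)).card := by
  rw [← card_union_of_disjoint]
  · congr 1
    ext U
    simp only [spans, mem_filter, mem_union, h]
    constructor
    · rintro ⟨hU, x, hx, y, hy, h1⟩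
      by_cases e : ∃ x ∈ U, ∃ y ∈ U, G x y
      · exact Or.inl ⟨hU, e⟩
      · rcases h1 with h1 | ⟨rfl, rfl⟩
        · exact absurd ⟨x, hx, y, hy, h1⟩ e
        · exact Or.inr ⟨hU, hx, hy, e⟩
    · rintro (⟨hU, x, hx, y, hy, h1⟩ | ⟨hU, hp, hq, -⟩)
      · exact ⟨hU, x, hx, y, hy, Or.inl h1⟩
      · exact ⟨hU, p, hp, q, hq, Or.inr ⟨rfl, rfl⟩⟩
  · rw [disjoint_left]
    intro U h1 h2
    exact (mem_filter.mp h2).2.2.2 (mem_filter.mp h1).2

lemma add_edge (n : ℕ) (G G' : ℕ → ℕ → Prop) (p q : ℕ) (E : Finset ℕ)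
    (h : ∀ x y, G' x y ↔ G x y ∨ (x = p ∧ y = q)) (hirr : ∀ x, ¬ G x x)
    (hp : p < n) (hq : q < n) (hpq : p ≠ q) (h1 : ¬ G p q) (h2 : ¬ G q p)
    (hE : ∀ z, z ∈ E ↔ z < n ∧ (z = p ∨ z = q ∨ G p z ∨ G z p ∨ G q z ∨ G z q)) :
    (spans n 2 G').card = (spans n 2 G).card + 1 ∧
      (spans n 3 G').card + E.card = (spans n 3 G).card + n := by
  classical
  constructor
  · rw [spans_add n 2 G G' p q h]
    congr 1
    rw [card_eq_one]
    refine ⟨{p, q}, ?_⟩
    ext U
    simp only [mem_filter, mem_powersetCard, mem_singleton]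
    constructor
    · rintro ⟨⟨-, hc⟩, h3, h4, -⟩
      exact (eq_of_subset_of_card_le (by simp [insert_subset_iff, h3, h4])
        (by rw [hc, card_pair hpq])).symm
    · rintro rfl
      refine ⟨⟨by simp [insert_subset_iff, hp, hq], card_pair hpq⟩, by simp, by simp, ?_⟩
      simp [hirr, h1, h2]
  · rw [spans_add n 3 G G' p q h, add_assoc]
    congr 1
    have hsub : E ⊆ range n := fun z hz => mem_range.mpr ((hE z).mp hz).1
    have hc := card_sdiff_add_card_eq_card hsub
    rw [card_range] at hc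
    refine Eq.trans ?_ hc
    congr 1
    symm
    apply card_bij (fun z _ => ({z, p, q} : Finset ℕ))
    · intro z hz
      obtain ⟨hz1, hz2⟩ := mem_sdiff.mp hz
      rw [mem_range] at hz1
      rw [hE] at hz2
      simp only [hz1, true_and, not_or] at hz2
      simp only [mem_filter, mem_powersetCard]
      refine ⟨⟨by simp [insert_subset_iff, hp, hq, hz1], ?_⟩, by simp, by simp, ?_⟩
      · rw [card_insert_of_notMem (by simp [hz2.1, hz2.2.1]), card_pair hpq]
      · simp [hirr, h1, h2, hz2]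
    · intro z hz w hw e
      have hz2 := (mem_sdiff.mp hz).2
      rw [hE] at hz2
      simp only [mem_range.mp (mem_sdiff.mp hz).1, true_and, not_or] at hz2
      have : z ∈ ({w, p, q} : Finset ℕ) := e ▸ mem_insert_self _ _
      simpa [hz2.1, hz2.2.1] using this
    · intro U hU
      simp only [mem_filter, mem_powersetCard] at hU
      obtain ⟨⟨hU, hc⟩, h3, h4, h5⟩ := hU
      have hs : ({p, q} : Finset ℕ) ⊆ U := by simp [insert_subset_iff, h3, h4]
      obtain ⟨z, hz, hz'⟩ := exists_mem_notMem_of_card_lt_card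
        (show ({p, q} : Finset ℕ).card < U.card by rw [card_pair hpq, hc]; omega)
      push Not at h5
      refine ⟨z, mem_sdiff.mpr ⟨hU hz, ?_⟩, ?_⟩
      · rw [hE]
        simp only [mem_insert, mem_singleton, not_or] at hz'
        simp [hz'.1, hz'.2, h5 p h3 z hz, h5 z hz p h3, h5 q h4 z hz, h5 z hz q h4]
      · apply eq_of_subset_of_card_le (insert_subset hz hs)
        rw [card_insert_of_notMem hz', card_pair hpq, hc]

lemma good_of_graph (n : ℕ) (G : ℕ → ℕ → Prop) (hirr : ∀ x, ¬ G x x)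
    (hmax : ∀ x y, x < y → y < n → ¬ G x y → ¬ G y x →
      ∃ z < n, z ≠ x ∧ z ≠ y ∧ ¬ G x z ∧ ¬ G z x ∧ ¬ G y z ∧ ¬ G z y) :
    Good n 2 (spans n 2 G).card (spans n 3 G).card := by
  classical
  refine ⟨spans n 2 G, filter_subset _ _, rfl, ?_, ?_⟩
  · congr 1
    ext U
    simp only [shadow, spans, mem_filter, mem_powersetCard]
    constructor
    · rintro ⟨hU, h, ⟨-, x, hx, y, hy, e⟩, hs⟩
      exact ⟨hU, x, hs hx, y, hs hy, e⟩
    · rintro ⟨hU, x, hx, y, hy, e⟩
      have hne : x ≠ y := fun h => hirr x (h ▸ e)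
      have hs : ({x, y} : Finset ℕ) ⊆ U := by simp [insert_subset_iff, hx, hy]
      exact ⟨hU, {x, y}, ⟨⟨hs.trans hU.1, card_pair hne⟩, x, by simp, y, by simp, e⟩, hs⟩
  · intro X hX hXH
    obtain ⟨h1, h2⟩ := mem_powersetCard.mp hX
    obtain ⟨x, y, hxy, rfl⟩ : ∃ x y, x < y ∧ X = {x, y} := by
      obtain ⟨x, y, hne, rfl⟩ := card_eq_two.mp h2
      rcases lt_or_gt_of_ne hne with h | h
      · exact ⟨x, y, h, rfl⟩
      · exact ⟨y, x, h, pair_comm _ _⟩
    simp only [spans, mem_filter, hX, true_and] at hXH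
    push Not at hXH
    have hy : y < n := mem_range.mp (h1 (by simp))
    have g1 := hXH x (by simp) y (by simp)
    have g2 := hXH y (by simp) x (by simp)
    obtain ⟨z, hz, e1, e2, g3, g4, g5, g6⟩ := hmax x y hxy hy g1 g2
    refine ⟨{z, x, y}, mem_powersetCard.mpr ⟨insert_subset (mem_range.mpr hz) h1, ?_⟩,
      subset_insert _ _, ?_⟩
    · rw [card_insert_of_notMem (by simp [e1, e2]), h2]
    · intro h hh hs
      obtain ⟨-, a, ha, b, hb, e⟩ := mem_filter.mp hh
      have ha' := hs ha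
      have hb' := hs hb
      simp only [mem_insert, mem_singleton] at ha' hb'
      rcases ha' with rfl | rfl | rfl <;> rcases hb' with rfl | rfl | rfl <;>
        first | exact hirr _ e | contradiction

/-- a star at `0` with leaves `1..i` -/
def G1 (i : ℕ) (x y : ℕ) : Prop := x = 0 ∧ 1 ≤ y ∧ y ≤ i

/-- plus a star at `v` with leaves `d+1..d+j` -/
def G2 (d v i j : ℕ) (x y : ℕ) : Prop :=
  (x = 0 ∧ 1 ≤ y ∧ y ≤ i) ∨ (x = v ∧ d + 1 ≤ y ∧ y ≤ d + j)

/-- plus a matching of `k` edges starting at `s` -/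
def Gr (d v s i j k : ℕ) (x y : ℕ) : Prop :=
  G2 d v i j x y ∨ (s ≤ x ∧ x < s + 2 * k ∧ (x + s) % 2 = 0 ∧ y = x + 1)

lemma choose_two_succ (i : ℕ) : (i + 1).choose 2 = i.choose 2 + i := by
  rw [Nat.choose_succ_succ' i 1]; simp [add_comm]

lemma step1 (n i : ℕ) (hi : i + 1 < n) :
    (spans n 2 (G1 (i + 1))).card = (spans n 2 (G1 i)).card + 1 ∧
      (spans n 3 (G1 (i + 1))).card + (i + 2) = (spans n 3 (G1 i)).card + n := by
  have := add_edge n (G1 i) (G1 (i + 1)) 0 (i + 1) (range (i + 2))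
      (by intro x y; unfold G1; omega) (by intro x; unfold G1; omega) (by omega) hi (by omega)
      (by unfold G1; omega) (by unfold G1; omega) (by intro z; unfold G1; rw [mem_range]; omega)
  rwa [card_range] at this

lemma count1 (n i : ℕ) (hi : i < n) :
    (spans n 2 (G1 i)).card = i ∧ (spans n 3 (G1 i)).card + i.choose 2 + 2 * i = i * n := by
  classical
  induction i with
  | zero =>
    have : ∀ k, spans n k (G1 0) = ∅ := by
      intro k
      unfold spans
      rw [filter_eq_empty_iff]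
      rintro U - ⟨x, -, y, -, h⟩
      unfold G1 at h; omega
    simp [this]
  | succ i ih =>
    obtain ⟨h1, h2⟩ := ih (by omega)
    obtain ⟨h3, h4⟩ := step1 n i hi
    rw [choose_two_succ, add_mul]
    omega

lemma step2 (n d v a j : ℕ) (e1 : v < n) (e2 : a < v) (e3 : d + j + 1 < v) :
    (spans n 2 (G2 d v a (j + 1))).card = (spans n 2 (G2 d v a j)).card + 1 ∧
      (spans n 3 (G2 d v a (j + 1))).card + (j + 2 + if d + j + 1 ≤ a then 1 else 0) =
        (spans n 3 (G2 d v a j)).card + n := by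
  have h4 := add_edge n (G2 d v a j) (G2 d v a (j + 1)) v (d + j + 1)
      (insert v (Icc (d + 1) (d + j + 1)) ∪ if d + j + 1 ≤ a then {0} else ∅)
      (by intro x y; unfold G2; omega) (by intro x; unfold G2; omega) e1 (by omega) (by omega)
      (by unfold G2; omega) (by unfold G2; omega) (by
        intro z
        have hm : z ∈ (insert v (Icc (d + 1) (d + j + 1)) ∪ if d + j + 1 ≤ a then {0} else ∅) ↔
            z = v ∨ (d + 1 ≤ z ∧ z ≤ d + j + 1) ∨ (z = 0 ∧ d + j + 1 ≤ a) := by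
          split_ifs <;> simp only [mem_union, mem_insert, mem_Icc, mem_singleton, notMem_empty,
            or_false] <;> omega
        rw [hm]
        unfold G2
        constructor
        · rintro (h | h | h) <;> omega
        · rintro ⟨h0, h | h | h | h | h | h⟩ <;> omega)
  rw [card_union_of_disjoint (by split_ifs <;> simp; omega),
    card_insert_of_notMem (by simp only [mem_Icc]; omega), Nat.card_Icc] at h4
  refine ⟨h4.1, Eq.trans ?_ h4.2⟩
  split_ifs <;> simp only [card_singleton, card_empty] <;> omega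

lemma count2 (n d v a j : ℕ) (hd : d ≤ a) (ha : a < n) (hv : 0 < j → v < n ∧ a < v ∧ d + j < v) :
    (spans n 2 (G2 d v a j)).card = a + j ∧
      (spans n 3 (G2 d v a j)).card + a.choose 2 + j.choose 2 + min j (a - d) + 2 * (a + j) =
        (a + j) * n := by
  induction j with
  | zero =>
    have : G2 d v a 0 = G1 a := by
      funext x y; unfold G1 G2; apply propext; omega
    rw [this]
    simpa using count1 n a ha
  | succ j ih =>
    obtain ⟨h1, h2⟩ := ih (by omega)
    obtain ⟨e1, e2, e3⟩ := hv (by omega)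
    obtain ⟨h3, h4⟩ := step2 n d v a j e1 e2 e3
    rw [choose_two_succ, ← add_assoc, add_mul (a + j)]
    split_ifs at h4 <;> omega

lemma G2_lt {d v a b s x y : ℕ} (hv : 0 < b → v < s ∧ a < v ∧ d + b < v) (hs : a < s)
    (h : G2 d v a b x y) : x < s ∧ y < s ∧ x ≠ y := by
  unfold G2 at h; omega

lemma step3 (n d v s a b k : ℕ) (hv : 0 < b → v < s ∧ a < v ∧ d + b < v)
    (hs : a < s) (hk : s + 2 * (k + 1) ≤ n) :
    (spans n 2 (Gr d v s a b (k + 1))).card = (spans n 2 (Gr d v s a b k)).card + 1 ∧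
      (spans n 3 (Gr d v s a b (k + 1))).card + 2 = (spans n 3 (Gr d v s a b k)).card + n := by
  have hG : ∀ x y, Gr d v s a b k x y → x < s + 2 * k ∧ y < s + 2 * k ∧ x ≠ y := by
    rintro x y (h | h)
    · have := G2_lt hv hs h; omega
    · omega
  have h4 := add_edge n (Gr d v s a b k) (Gr d v s a b (k + 1)) (s + 2 * k)
      (s + 2 * k + 1) {s + 2 * k, s + 2 * k + 1}
      (by
        intro x y
        unfold Gr
        rw [or_assoc]
        apply or_congr_right
        omega)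
      (fun x h => (hG x x h).2.2 rfl) (by omega) (by omega) (by omega)
      (fun h => by have := hG _ _ h; omega) (fun h => by have := hG _ _ h; omega) (by
        intro z
        simp only [mem_insert, mem_singleton]
        constructor
        · rintro (h | h)
          · exact ⟨by omega, Or.inl h⟩
          · exact ⟨by omega, Or.inr (Or.inl h)⟩
        · rintro ⟨-, h | h | h | h | h | h⟩
          · exact Or.inl h
          · exact Or.inr h
          all_goals have := hG _ _ h; omega)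
  rwa [card_pair (by omega)] at h4

lemma count3 (n d v s a b k : ℕ) (hd : d ≤ a) (hv : 0 < b → v < s ∧ a < v ∧ d + b < v)
    (hs : a < s) (hk : s + 2 * k ≤ n) :
    (spans n 2 (Gr d v s a b k)).card = a + b + k ∧
      (spans n 3 (Gr d v s a b k)).card + a.choose 2 + b.choose 2 + min b (a - d) +
        2 * (a + b + k) = (a + b + k) * n := by
  induction k with
  | zero =>
    have : Gr d v s a b 0 = G2 d v a b := by
      funext x y; unfold Gr; apply propext
      exact ⟨fun h => h.resolve_right (by omega), Or.inl⟩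
    rw [this]
    simpa using count2 n d v a b hd (by omega) (by omega)
  | succ k ih =>
    obtain ⟨h1, h2⟩ := ih (by omega)
    obtain ⟨h3, h4⟩ := step3 n d v s a b k hv hs hk
    rw [← add_assoc, add_mul (a + b + k)]
    omega

lemma max1 (n a k : ℕ) (hn : 4 ≤ n) (ha : 1 ≤ a)
    (h2 : a + 4 ≤ n ∨ (k = 0 ∧ a + 2 ≠ n)) (G : ℕ → ℕ → Prop)
    (hG : ∀ x y, G x y → (x = 0 ∧ 1 ≤ y ∧ y ≤ a) ∨ (a < x ∧ y = x + 1 ∧ 0 < k ∧ x ≠ a + 2))
    (hG' : ∀ y, 1 ≤ y → y ≤ a → G 0 y) :
    ∀ x y, x < y → y < n → ¬ G x y → ¬ G y x →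
      ∃ z < n, z ≠ x ∧ z ≠ y ∧ ¬ G x z ∧ ¬ G z x ∧ ¬ G y z ∧ ¬ G z y := by
  intro x y hxy hy g1 _
  have g : x = 0 → a < y := by
    rintro rfl
    by_contra h
    exact g1 (hG' y (by omega) (by omega))
  suffices ∃ z < n, z ≠ x ∧ z ≠ y ∧ ∀ p q, (p = x ∨ p = y) ∧ q = z ∨ p = z ∧ (q = x ∨ q = y) →
      ¬ ((p = 0 ∧ 1 ≤ q ∧ q ≤ a) ∨ (a < p ∧ q = p + 1 ∧ 0 < k ∧ p ≠ a + 2)) by
    obtain ⟨z, h3, h4, h5, h6⟩ := this
    exact ⟨z, h3, h4, h5, fun h => h6 _ _ (by simp) (hG _ _ h), fun h => h6 _ _ (by simp) (hG _ _ h),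
      fun h => h6 _ _ (by simp) (hG _ _ h), fun h => h6 _ _ (by simp) (hG _ _ h)⟩
  by_cases c1 : a < x
  · exact ⟨0, by omega, by omega, by omega, fun p q h => by omega⟩
  by_cases c2 : y ≤ a
  · by_cases c3 : y = 3
    · by_cases c4 : x = 1
      · exact ⟨2, by omega, by omega, by omega, fun p q h => by omega⟩
      · exact ⟨1, by omega, by omega, by omega, fun p q h => by omega⟩
    · by_cases c4 : x = 3
      · exact ⟨1, by omega, by omega, by omega, fun p q h => by omega⟩
      · exact ⟨3, by omega, by omega, by omega, fun p q h => by omega⟩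
  · by_cases c3 : a + 3 ≤ y
    · exact ⟨a + 1, by omega, by omega, by omega, fun p q h => by omega⟩
    · by_cases c4 : a + 4 ≤ n
      · exact ⟨a + 3, by omega, by omega, by omega, fun p q h => by omega⟩
      · by_cases c5 : y = a + 1
        · exact ⟨a + 2, by omega, by omega, by omega, fun p q h => by omega⟩
        · exact ⟨a + 1, by omega, by omega, by omega, fun p q h => by omega⟩

lemma good1 (n a k : ℕ) (hn : 4 ≤ n) (ha : 1 ≤ a) (h1 : a + 1 + 2 * k ≤ n)
    (h2 : a + 4 ≤ n ∨ (k = 0 ∧ a + 2 ≠ n)) :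
    ∃ D, Good n 2 (a + k) D ∧ D + a.choose 2 + 2 * (a + k) = (a + k) * n := by
  obtain ⟨h3, h4⟩ := count3 n a 0 (a + 1) a 0 k le_rfl (by omega) (by omega) h1
  refine ⟨_, ?_, by simpa using h4⟩
  clear h4
  have := good_of_graph n (Gr a 0 (a + 1) a 0 k) (by clear h3; intro x; unfold Gr G2; omega)
    (max1 n a k hn ha h2 _ (by clear h3; intro x y; unfold Gr G2; omega)
      (by clear h3; intro y; unfold Gr G2; omega))
  rw [h3] at this
  simpa using this

lemma max2 (n e k : ℕ) (he : 1 ≤ e) (h2 : e + 2 < n) (h3 : e = 1 → 6 ≤ n ∨ (k = 0 ∧ 5 ≤ n))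
    (G : ℕ → ℕ → Prop)
    (hG : ∀ x y, G x y → ((x = 0 ∨ x = e + 1) ∧ 1 ≤ y ∧ y ≤ e) ∨
      (e + 1 < x ∧ y = x + 1 ∧ 0 < k ∧ x ≠ e + 3)) :
    ∀ x y, x < y → y < n → ¬ G x y → ¬ G y x →
      ∃ z < n, z ≠ x ∧ z ≠ y ∧ ¬ G x z ∧ ¬ G z x ∧ ¬ G y z ∧ ¬ G z y := by
  intro x y hxy hy _ _
  suffices ∃ z < n, z ≠ x ∧ z ≠ y ∧ ∀ p q, (p = x ∨ p = y) ∧ q = z ∨ p = z ∧ (q = x ∨ q = y) →
      ¬ (((p = 0 ∨ p = e + 1) ∧ 1 ≤ q ∧ q ≤ e) ∨
      (e + 1 < p ∧ q = p + 1 ∧ 0 < k ∧ p ≠ e + 3)) by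
    obtain ⟨z, h3, h4, h5, h6⟩ := this
    exact ⟨z, h3, h4, h5, fun h => h6 _ _ (by simp) (hG _ _ h), fun h => h6 _ _ (by simp) (hG _ _ h),
      fun h => h6 _ _ (by simp) (hG _ _ h), fun h => h6 _ _ (by simp) (hG _ _ h)⟩
  by_cases c1 : y ≤ e + 1
  · exact ⟨e + 2, by omega, by omega, by omega, fun p q h => by omega⟩
  by_cases c2 : e < x
  · exact ⟨0, by omega, by omega, by omega, fun p q h => by omega⟩
  by_cases c3 : x = 0
  · exact ⟨e + 1, by omega, by omega, by omega, fun p q h => by omega⟩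
  by_cases c4 : x = 1
  · by_cases c5 : e = 1
    · by_cases c6 : 5 ≤ y
      · exact ⟨3, by omega, by omega, by omega, fun p q h => by omega⟩
      · by_cases c7 : 6 ≤ n
        · exact ⟨5, by omega, by omega, by omega, fun p q h => by omega⟩
        · by_cases c8 : y = 3
          · exact ⟨4, by omega, by omega, by omega, fun p q h => by omega⟩
          · exact ⟨3, by omega, by omega, by omega, fun p q h => by omega⟩
    · exact ⟨2, by omega, by omega, by omega, fun p q h => by omega⟩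
  · exact ⟨1, by omega, by omega, by omega, fun p q h => by omega⟩

lemma good2 (n a b c k : ℕ) (hb : 1 ≤ b) (hab : b ≤ a) (hc : c ≤ b)
    (h1 : a + b - c + 2 + 2 * k ≤ n) (h2 : a + b - c + 2 < n)
    (h3 : a + b - c = 1 → 6 ≤ n ∨ (k = 0 ∧ 5 ≤ n)) :
    ∃ D, Good n 2 (a + b + k) D ∧
      D + a.choose 2 + b.choose 2 + c + 2 * (a + b + k) = (a + b + k) * n := by
  obtain ⟨d, rfl⟩ : ∃ d, a = d + c := ⟨a - c, by omega⟩
  have e : d + c + b - c = d + b := by omega
  rw [e] at h1 h2 h3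
  obtain ⟨h4, h5⟩ := count3 n d (d + b + 1) (d + b + 2) (d + c) b k (by omega) (by omega)
    (by omega) h1
  rw [show min b (d + c - d) = c by omega] at h5
  refine ⟨_, ?_, h5⟩
  clear h5
  have := good_of_graph n (Gr d (d + b + 1) (d + b + 2) (d + c) b k)
    (by clear h4; intro x; unfold Gr G2; omega)
    (max2 n (d + b) k (by omega) h2 h3 _ (by clear h4; intro x y; unfold Gr G2; omega))
  rwa [h4] at this

lemma two_choose (a : ℕ) : (2 * (a.choose 2 : ℤ)) = a * (a - 1) := by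
  induction a with
  | zero => simp
  | succ a ih => rw [choose_two_succ]; push_cast; linarith

lemma core (N t a b c : ℕ) (hN : 2 ≤ N) (ht : t ≤ N + 2) (hab : b ≤ a) (hc : c ≤ b)
    (h1 : 1 ≤ a + b) (h2 : a + b ≤ t)
    (h : (N : ℤ) * t - a.choose 2 - b.choose 2 - c < N * (((N : ℤ) + 2) / 2)) :
    ∃ t' D : ℕ, Good (N + 3) 2 t' D ∧
      (t' : ℤ) - D = - (N : ℤ) * t + a.choose 2 + b.choose 2 + c := by
  obtain ⟨k, rfl⟩ : ∃ k, t = a + b + k := ⟨t - (a + b), by omega⟩
  have ea := two_choose a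
  have eb := two_choose b
  have hh : 2 * (((N : ℤ) + 2) / 2) ≤ N + 2 := by omega
  have hN' : (2 : ℤ) ≤ N := by exact_mod_cast hN
  have H : 2 * (N : ℤ) * (a + b + k) - a * (a - 1) - b * (b - 1) - 2 * c < N * (N + 2) := by
    push_cast at h
    nlinarith
  rcases Nat.eq_zero_or_pos b with rfl | hb
  · obtain rfl : c = 0 := by omega
    by_cases hex : a = N + 1 ∧ k = 0
    · obtain ⟨rfl, rfl⟩ := hex
      obtain ⟨D, hD, e⟩ := good1 (N + 3) N 0 (by omega) (by omega) (by omega) (by omega)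
      refine ⟨_, D, hD, ?_⟩
      rw [choose_two_succ]
      zify at e
      push_cast at *
      simp only [Nat.choose_zero_succ] at *
      nlinarith
    · have f1 : a + 2 * k ≤ N + 1 ∨ k = 0 := by
        by_contra hcon
        have g1 : (N : ℤ) + 2 ≤ a + 2 * k := by omega
        have g2 : (a : ℤ) ≤ N + 1 := by omega
        have g3 : (0 : ℤ) ≤ a * (N + 1 - a) := by positivity
        push_cast at H
        nlinarith
      obtain ⟨D, hD, e⟩ := good1 (N + 3) a k (by omega) (by omega) (by omega) (by omega)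
      refine ⟨_, D, hD, ?_⟩
      zify at e
      push_cast at *
      simp only [Nat.choose_zero_succ] at *
      nlinarith
  · have f1 : a + b + 2 * k ≤ N + 1 + c := by
      by_contra hcon
      have g1 : (N : ℤ) + 2 + c ≤ a + b + 2 * k := by omega
      have g2 : (0 : ℤ) ≤ a * (N + 1 - a) := mul_nonneg (by positivity) (by omega)
      have g3 : (0 : ℤ) ≤ b * (N + 1 - b) := mul_nonneg (by positivity) (by omega)
      have g4 : (0 : ℤ) ≤ c * (N - 2) := mul_nonneg (by positivity) (by omega)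
      nlinarith
    have f2 : a + b ≤ N + c := by
      by_contra hcon
      obtain rfl : k = 0 := by omega
      have g1 : (0 : ℤ) ≤ (a - 1) * (b - 1) := mul_nonneg (by omega) (by omega)
      have g2 : (N : ℤ) = a + b - 1 - c := by omega
      have : c = 0 ∨ c = 1 := by omega
      rcases this with rfl | rfl
      · rw [g2] at H hN'; push_cast at H; nlinarith
      · rw [g2] at H hN'; push_cast at H; nlinarith
    have f3 : a + b - c = 1 → 6 ≤ N + 3 ∨ (k = 0 ∧ 5 ≤ N + 3) := by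
      intro e
      obtain rfl : a = 1 := by omega
      obtain rfl : b = 1 := by omega
      obtain rfl : c = 1 := by omega
      by_cases e2 : N = 2
      · subst e2
        right; push_cast at H; omega
      · omega
    obtain ⟨D, hD, e⟩ := good2 (N + 3) a b c k hb hab hc (by omega) (by omega) f3
    refine ⟨_, D, hD, ?_⟩
    zify at e
    push_cast
    nlinarith

theorem result (l n : ℕ) (hl : l = 2 ∨ l = 3) (hn : l ≤ (n + 1) / 2) (m : ℤ)
    (hG : FormG n l m) (h1 : T n l < m) (h2 : m < n.choose (l + 1)) : InS n l m := by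
  obtain ⟨t, a, b, c, -, ht, hab, hc, h3, h4, rfl⟩ := hG
  obtain ⟨N, rfl⟩ : ∃ N, n = N + l + 1 := ⟨n - l - 1, by omega⟩
  unfold T at h1
  have e1 : ((N + l + 1 : ℕ) : ℤ) - l - 1 = N := by push_cast; ring
  have e2 : ((N + l + 1 : ℕ) : ℤ) - l + 1 = N + 2 := by push_cast; ring
  rw [e1, e2] at h1
  rw [e2] at ht
  rw [e1] at h2 ⊢
  have hN : 2 ≤ N := by
    by_contra hlt
    have : N = 0 ∨ N = 1 := by omega
    rcases this with rfl | rfl
    · push_cast at h1 h2; omega
    · push_cast at h1 h2; omega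
  obtain ⟨t', D, hD, e⟩ := core N t a b c hN (by omega) hab hc h3 h4 (by linarith)
  have hg : Good (N + l + 1) l t' D := by
    rcases hl with rfl | rfl
    · exact hD
    · exact hD.lift (by omega)
  convert hg.anti (by omega) using 1
  linarith

end Pool.Agent.Results.MP_7d5f0f_co.Yes
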